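import Mathlib
import Pool.Agent.Helper40.PR.Defs3
import Pool.Agent.Helper40.PR.Conv
import Pool.Agent.Helper65.PR.TK4A
import Pool.Agent.Helper59.PR.AB10
import Pool.Agent.Helper67.PR.CD14
import Pool.Agent.Helper40.PR.E12
import Pool.Agent.Helper2.PR.E11D

/-!
# Surjective maps preserving the spectral radius of operator products

A complete answer to the question for all five products, for arbitrary nonzero complex Banach
(Hilbert) spaces and maps which are only assumed to be surjective.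
-/

namespace Pool.Agent.Results.MP_339e9c_an.SpectralRadiusPreservers

section defs

variable {X : Type*} [NormedAddCommGroup X] [NormedSpace ℂ X]
variable {Y : Type*} [NormedAddCommGroup Y] [NormedSpace ℂ Y]

/-- `X` is reflexive: every bounded functional on the dual space is the evaluation at a vector. -/
def Reflexive (X : Type*) [NormedAddCommGroup X] [NormedSpace ℂ X] : Prop :=
  ∀ F : (X →L[ℂ] ℂ) →L[ℂ] ℂ, ∃ x : X, ∀ f, F f = f x

/-- `A` is a bounded linear bijection (its inverse is then bounded, too). -/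
def LinearIso (A : X → Y) : Prop := ∃ e : X ≃L[ℂ] Y, ∀ x, e x = A x

/-- `A` is a bounded conjugate linear bijection (its inverse is then bounded, too). -/
def ConjIso (A : X → Y) : Prop := ∃ e : X ≃SL[starRingEnd ℂ] Y, ∀ x, e x = A x

/-- `φ(T) A = c(T) A T + h(T) A` for all `T`, where `A : X → Y` is a bounded linear or bounded
conjugate linear bijection. -/
def Direct (c h : (X →L[ℂ] X) → ℂ) (φ : (X →L[ℂ] X) → (Y →L[ℂ] Y)) : Prop :=
  ∃ A : X → Y, (LinearIso A ∨ ConjIso A) ∧ ∀ T x, φ T (A x) = c T • A (T x) + h T • A x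

/-- `X` is reflexive and `φ(T) A = c(T) A T* + h(T) A` for all `T`, where `T* f = f ∘ T` is the
Banach space adjoint and `A : X* → Y` is a bounded linear or bounded conjugate linear bijection. -/
def Dualised (c h : (X →L[ℂ] X) → ℂ) (φ : (X →L[ℂ] X) → (Y →L[ℂ] Y)) : Prop :=
  Reflexive X ∧ ∃ A : (X →L[ℂ] ℂ) → Y, (LinearIso A ∨ ConjIso A) ∧
    ∀ (T : X →L[ℂ] X) (f : X →L[ℂ] ℂ), φ T (A f) = c T • A (f.comp T) + h T • A f

/-- The standard form of a map from `B(X)` to `B(Y)`. -/
def StandardForm (c h : (X →L[ℂ] X) → ℂ) (φ : (X →L[ℂ] X) → (Y →L[ℂ] Y)) : Prop :=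
  Direct c h φ ∨ Dualised c h φ

end defs

section hilbert

variable {H : Type*} [NormedAddCommGroup H] [InnerProductSpace ℂ H]
variable {K : Type*} [NormedAddCommGroup K] [InnerProductSpace ℂ K]

/-- `U` is unitary: a linear isometric bijection. -/
def Unitary (U : H → K) : Prop := ∃ e : H ≃ₗᵢ[ℂ] K, ∀ x, e x = U x

/-- `U` is antiunitary: a conjugate linear isometric bijection. -/
def Antiunitary (U : H → K) : Prop := ∃ e : H ≃ₛₗᵢ[starRingEnd ℂ] K, ∀ x, e x = U x

/-- `T` is normal and the operators `1`, `T + T*`, `T* T` are linearly dependent over the reals.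
Here `star T` is the Hilbert space adjoint of `T`. -/
def Exceptional [CompleteSpace H] (T : H →L[ℂ] H) : Prop :=
  star T * T = T * star T ∧ ∃ a b c : ℝ, (a, b, c) ≠ (0, 0, 0) ∧
    ∀ x, (a : ℂ) • x + (b : ℂ) • (T x + (star T) x) + (c : ℂ) • (star T) (T x) = 0

/-- For a unitary or antiunitary `U : H → K` and every `T`: `φ(T) U = ± U T`, or `T` is exceptional
and `φ(T) U = ± U T*`. -/
def SkewForm [CompleteSpace H] (φ : (H →L[ℂ] H) → (K →L[ℂ] K)) : Prop :=
  ∃ U : H → K, (Unitary U ∨ Antiunitary U) ∧ ∀ T : H →L[ℂ] H, ∃ ε : ℂ, (ε = 1 ∨ ε = -1) ∧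
    ((∀ x, φ T (U x) = ε • U (T x)) ∨
     (Exceptional T ∧ ∀ x, φ T (U x) = ε • U ((star T) x)))

end hilbert

/-- The determination of all surjective maps preserving the spectral radius of the five products
`TS`, `TST`, `TS + ST`, `TS - ST` (for all nonzero complex Banach spaces `X` and `Y`) and
`TS - ST*` (for all nonzero complex Hilbert spaces `H` and `K`). -/
theorem result
    (X : Type*) [NormedAddCommGroup X] [NormedSpace ℂ X] [CompleteSpace X] [Nontrivial X]
    (Y : Type*) [NormedAddCommGroup Y] [NormedSpace ℂ Y] [CompleteSpace Y] [Nontrivial Y]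
    (H : Type*) [NormedAddCommGroup H] [InnerProductSpace ℂ H] [CompleteSpace H] [Nontrivial H]
    (K : Type*) [NormedAddCommGroup K] [InnerProductSpace ℂ K] [CompleteSpace K] [Nontrivial K] :
    (∀ φ : (X →L[ℂ] X) → (Y →L[ℂ] Y), Function.Surjective φ →
      ((∀ T S, spectralRadius ℂ (φ T * φ S) = spectralRadius ℂ (T * S)) ↔
        ∃ c : (X →L[ℂ] X) → ℂ, (∀ T, ‖c T‖ = 1) ∧ StandardForm c (fun _ => 0) φ) ∧
      ((∀ T S, spectralRadius ℂ (φ T * φ S * φ T) = spectralRadius ℂ (T * S * T)) ↔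
        ∃ c : (X →L[ℂ] X) → ℂ, (∀ T, ‖c T‖ = 1) ∧ StandardForm c (fun _ => 0) φ) ∧
      ((∀ T S, spectralRadius ℂ (φ T * φ S + φ S * φ T) = spectralRadius ℂ (T * S + S * T)) ↔
        ∃ c : (X →L[ℂ] X) → ℂ, (∀ T, ‖c T‖ = 1) ∧ StandardForm c (fun _ => 0) φ) ∧
      ((∀ T S, spectralRadius ℂ (φ T * φ S - φ S * φ T) = spectralRadius ℂ (T * S - S * T)) ↔
        ∃ c h : (X →L[ℂ] X) → ℂ, (∀ T, ‖c T‖ = 1) ∧ StandardForm c h φ)) ∧
    (∀ φ : (H →L[ℂ] H) → (K →L[ℂ] K), Function.Surjective φ →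
      ((∀ T S, spectralRadius ℂ (φ T * φ S - φ S * star (φ T)) =
          spectralRadius ℂ (T * S - S * star T)) ↔ SkewForm φ)) := by
  refine ⟨?_, ?_⟩
  · intro φ hs
    have key : ∀ c h : (X →L[ℂ] X) → ℂ,
        StandardForm c h φ ↔ (PR.FormI c h φ ∨ PR.FormII c h φ) := by
      intro c h
      constructor
      · rintro (⟨A, hA | hA, e⟩ | ⟨hr, A, hA | hA, e⟩)
        · obtain ⟨u, hu⟩ := hA
          refine Or.inl (Or.inl ⟨u, fun T y => ?_⟩)
          have := e T (u.symm y)
          rwa [← hu, ← hu, u.apply_symm_apply] at this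
        · obtain ⟨u, hu⟩ := hA
          refine Or.inl (Or.inr ⟨u, fun T y => ?_⟩)
          have := e T (u.symm y)
          rwa [← hu, ← hu, u.apply_symm_apply] at this
        · obtain ⟨u, hu⟩ := hA
          refine Or.inr ⟨hr, Or.inl ⟨u, fun T y => ?_⟩⟩
          have := e T (u.symm y)
          rwa [← hu, ← hu, u.apply_symm_apply] at this
        · obtain ⟨u, hu⟩ := hA
          refine Or.inr ⟨hr, Or.inr ⟨u, fun T y => ?_⟩⟩
          have := e T (u.symm y)
          rwa [← hu, ← hu, u.apply_symm_apply] at this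
      · rintro ((⟨u, hu⟩ | ⟨u, hu⟩) | ⟨hr, ⟨u, hu⟩ | ⟨u, hu⟩⟩)
        · refine Or.inl ⟨u, Or.inl ⟨u, fun _ => rfl⟩, fun T x => ?_⟩
          rw [hu, u.symm_apply_apply]
        · refine Or.inl ⟨u, Or.inr ⟨u, fun _ => rfl⟩, fun T x => ?_⟩
          rw [hu, u.symm_apply_apply]
        · refine Or.inr ⟨hr, u, Or.inl ⟨u, fun _ => rfl⟩, fun T x => ?_⟩
          rw [hu, u.symm_apply_apply]
        · refine Or.inr ⟨hr, u, Or.inr ⟨u, fun _ => rfl⟩, fun T x => ?_⟩
          rw [hu, u.symm_apply_apply]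
    simp only [← PR.sr_eq_iff]
    refine ⟨⟨fun h => ?_, fun h => ?_⟩, ⟨fun h => ?_, fun h => ?_⟩, ⟨fun h => ?_, fun h => ?_⟩,
      ⟨fun h => ?_, fun h => ?_⟩⟩
    · obtain ⟨c, hc, hF⟩ := PR.main_ab (n := 1) (Or.inl rfl) hs (by simpa using h)
      exact ⟨c, hc, (key _ _).2 hF⟩
    · obtain ⟨c, hc, hF⟩ := h
      exact PR.conv_a hc ((key _ _).1 hF)
    · obtain ⟨c, hc, hF⟩ := PR.main_ab (n := 2) (Or.inr rfl) hs (fun T S => by
        have e := h S T
        rw [mul_assoc, PR.sr_comm, mul_assoc, ← pow_two] at e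
        rw [mul_assoc S T S, PR.sr_comm S (T * S), mul_assoc, ← pow_two] at e
        exact e)
      exact ⟨c, hc, (key _ _).2 hF⟩
    · obtain ⟨c, hc, hF⟩ := h
      exact PR.conv_b hc ((key _ _).1 hF)
    · obtain ⟨c, g, hc, hg, hF⟩ := PR.main_cd (σ := 1) (Or.inl rfl) hs (fun T S => by
        simpa [PR.bra] using h T S)
      rw [hg rfl] at hF
      exact ⟨c, hc, (key _ _).2 hF⟩
    · obtain ⟨c, hc, hF⟩ := h
      exact PR.conv_c hc ((key _ _).1 hF)
    · obtain ⟨c, g, hc, -, hF⟩ := PR.main_cd (σ := -1) (Or.inr rfl) hs (fun T S => by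
        simpa [PR.bra, ← sub_eq_add_neg] using h T S)
      exact ⟨c, g, hc, (key _ _).2 hF⟩
    · obtain ⟨c, g, hc, hF⟩ := h
      exact PR.conv_d hc ((key _ _).1 hF)
  · intro φ hs
    have hex : ∀ T : H →L[ℂ] H, Exceptional T ↔ PR.Special T := by
      intro T
      unfold Exceptional PR.Special
      rw [ContinuousLinearMap.star_eq_adjoint]
      refine and_congr eq_comm (exists_congr fun a => exists_congr fun b => exists_congr fun c =>
        and_congr Iff.rfl ?_)
      rw [ContinuousLinearMap.ext_iff]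
      rfl
    have key : SkewForm φ ↔ PR.FormE φ := by
      constructor
      · rintro ⟨U, hU | hU, e⟩
        · obtain ⟨u, hu⟩ := hU
          refine Or.inl ⟨u, fun T => ?_⟩
          obtain ⟨ε, hε, h1 | ⟨h2, h3⟩⟩ := e T
          · refine ⟨ε, hε, Or.inl fun y => ?_⟩
            have := h1 (u.symm y)
            rwa [← hu, ← hu, u.apply_symm_apply] at this
          · refine ⟨ε, hε, Or.inr ⟨(hex T).1 h2, fun y => ?_⟩⟩
            have := h3 (u.symm y)
            rwa [← hu, ← hu, u.apply_symm_apply] at this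
        · obtain ⟨u, hu⟩ := hU
          refine Or.inr ⟨u, fun T => ?_⟩
          obtain ⟨ε, hε, h1 | ⟨h2, h3⟩⟩ := e T
          · refine ⟨ε, hε, Or.inl fun y => ?_⟩
            have := h1 (u.symm y)
            rwa [← hu, ← hu, u.apply_symm_apply] at this
          · refine ⟨ε, hε, Or.inr ⟨(hex T).1 h2, fun y => ?_⟩⟩
            have := h3 (u.symm y)
            rwa [← hu, ← hu, u.apply_symm_apply] at this
      · rintro (⟨u, hu⟩ | ⟨u, hu⟩)
        · refine ⟨u, Or.inl ⟨u, fun _ => rfl⟩, fun T => ?_⟩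
          obtain ⟨ε, hε, h1 | ⟨h2, h3⟩⟩ := hu T
          · refine ⟨ε, hε, Or.inl fun x => ?_⟩
            rw [h1, u.symm_apply_apply]
          · refine ⟨ε, hε, Or.inr ⟨(hex T).2 h2, fun x => ?_⟩⟩
            rw [h3, u.symm_apply_apply]
            rfl
        · refine ⟨u, Or.inr ⟨u, fun _ => rfl⟩, fun T => ?_⟩
          obtain ⟨ε, hε, h1 | ⟨h2, h3⟩⟩ := hu T
          · refine ⟨ε, hε, Or.inl fun x => ?_⟩
            rw [h1, u.symm_apply_apply]
          · refine ⟨ε, hε, Or.inr ⟨(hex T).2 h2, fun x => ?_⟩⟩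
            rw [h3, u.symm_apply_apply]
            rfl
    rw [key]
    simp only [← PR.sr_eq_iff]
    constructor
    · intro h
      exact PR.main_e ⟨hs, h⟩
    · intro h
      exact PR.pres_of_formE h

end Pool.Agent.Results.MP_339e9c_an.SpectralRadiusPreservers
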